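import Mathlib

/-!
Local loop lemma: auxiliary constructions.
-/

namespace Run7.h645.Loop

universe u

variable {A : Type u}

/-- elements reachable from `a` by walks of length `k` (written from the far end) -/
def X (R : A → A → Prop) (a : A) : ℕ → Set A
  | 0 => {a}
  | k + 1 => {y | ∃ y' ∈ X R a k, R y y'}

theorem X_closed {n : ℕ} {R : A → A → Prop} {f : (Fin n → A) → A} {a : A}
    (hid : ∀ x, f (fun _ => x) = x)
    (hcomp : ∀ x y : Fin n → A, (∀ i, R (x i) (y i)) → R (f x) (f y)) :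
    ∀ (k : ℕ) (t : Fin n → A), (∀ i, t i ∈ X R a k) → f t ∈ X R a k := by
  intro k
  induction k with
  | zero =>
    intro t ht
    have : t = fun _ => a := by
      funext i
      exact ht i
    rw [this, hid]
    exact rfl
  | succ k ih =>
    intro t ht
    choose t' ht' hR using ht
    exact ⟨f t', ih t' ht', hcomp _ _ hR⟩

theorem X_even {R : A → A → Prop} {a b : A} (hab : R a b) (hba : R b a) :
    ∀ q : ℕ, a ∈ X R a (2 * q) := by
  intro q
  induction q with
  | zero => exact rfl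
  | succ q ih => exact ⟨b, ⟨a, ih, hba⟩, hab⟩

theorem chain {R : A → A → Prop} {a : A} (hs : ∀ x y, R x y → R y x) :
    ∀ (k : ℕ) (z : A), z ∈ X R a (k + 1) →
      ∃ zc : ℕ → A, zc k = z ∧ (∀ ℓ, ℓ < k → R (zc (ℓ + 1)) (zc ℓ)) ∧ R a (zc 0) := by
  intro k
  induction k with
  | zero =>
    rintro z ⟨y, hy, hR⟩
    have hy' : y = a := hy
    subst hy'
    exact ⟨fun _ => z, rfl, fun ℓ h => absurd h (Nat.not_lt_zero _), hs _ _ hR⟩
  | succ k ih =>
    rintro z ⟨y, hy, hR⟩
    obtain ⟨zc, h0, h1, h2⟩ := ih y hy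
    refine ⟨fun m => if m = k + 1 then z else zc m, if_pos rfl, ?_, ?_⟩
    · intro ℓ hℓ
      have e2 : (if ℓ = k + 1 then z else zc ℓ) = zc ℓ := if_neg (by omega)
      show R (if ℓ + 1 = k + 1 then z else zc (ℓ + 1)) (if ℓ = k + 1 then z else zc ℓ)
      rw [e2]
      by_cases h : ℓ = k
      · rw [if_pos (by omega), h, h0]
        exact hR
      · rw [if_neg (by omega)]
        exact h1 ℓ (by omega)
    · show R a (if 0 = k + 1 then z else zc 0)
      rw [if_neg (by omega)]
      exact h2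

/-- the two-parameter family of elements -/
def V (F : A → A → A → A) (alt : ℕ → A) (W : ℕ → ℕ → A) (zc : ℕ → A) (H : ℕ) : ℕ → ℕ → A
  | ℓ, 0 => zc ℓ
  | ℓ, k + 1 =>
    if _hk : k + 1 ≤ H then
      F (if _hs : ℓ + (k + 1) ≤ H then alt (ℓ + (k + 1))
          else V F alt W zc H (ℓ + (k + 1) - (H + 1)) H)
        (W ℓ (k + 1)) (V F alt W zc H ℓ k)
    else zc ℓ
termination_by ℓ k => (ℓ, k)
decreasing_by
  · apply Prod.Lex.left; omega
  · apply Prod.Lex.right; omega

/-- the special walk -/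
def U (F : A → A → A → A) (alt : ℕ → A) (W : ℕ → ℕ → A) (zc : ℕ → A) (H : ℕ) (s : ℕ) : A :=
  if s ≤ H then alt s else V F alt W zc H (s - (H + 1)) H

section
variable (F : A → A → A → A) (alt : ℕ → A) (W : ℕ → ℕ → A) (zc : ℕ → A) (H : ℕ)

theorem V_zero (ℓ : ℕ) : V F alt W zc H ℓ 0 = zc ℓ := by
  rw [V]

theorem V_succ (ℓ k : ℕ) (hk : k + 1 ≤ H) :
    V F alt W zc H ℓ (k + 1) =
      F (U F alt W zc H (ℓ + (k + 1))) (W ℓ (k + 1)) (V F alt W zc H ℓ k) := by
  rw [V, dif_pos hk, U]
  by_cases hs : ℓ + (k + 1) ≤ H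
  · rw [dif_pos hs, if_pos hs]
  · rw [dif_neg hs, if_neg hs]

theorem U_le (s : ℕ) (hs : s ≤ H) : U F alt W zc H s = alt s := by
  rw [U, if_pos hs]

theorem U_gt (m : ℕ) : U F alt W zc H (H + 1 + m) = V F alt W zc H m H := by
  rw [U, if_neg (by omega)]
  congr 1
  omega

end

/-- The key construction.  `F` is a ternary compatible operation which is absorbing at `a`. -/
theorem key {R : A → A → Prop} {a : A} (hs : ∀ x y, R x y → R y x)
    (F : A → A → A → A)
    (hFR : ∀ s s' u u' v v', R s s' → R u u' → R v v' → R (F s u v) (F s' u' v'))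
    (hFa : ∀ u v, R a u → R a v → R a (F a u v))
    (hFid : F a a a = a)
    (H : ℕ) (hH : 1 ≤ H) (alt : ℕ → A) (W : ℕ → ℕ → A) (zc : ℕ → A)
    (halt : ∀ s, alt s = a ∨ R a (alt s)) (haltH : alt H = a)
    (haltadj : ∀ s, R (alt (s + 1)) (alt s))
    (hW0 : ∀ k, R a (W 0 k))
    (hWadj : ∀ ℓ k, ℓ < H → R (W (ℓ + 1) k) (W ℓ k))
    (hWtime : ∀ k, R (W H (k + 1)) (W H k))
    (hW1 : R (W H 1) a)
    (hz0 : R a (zc 0)) (hzadj : ∀ ℓ, ℓ < H → R (zc (ℓ + 1)) (zc ℓ))
    (hstate : ∀ s u, R s a → R u a → R (F s u (zc H)) (zc H)) :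
    ∃ (z x v : A), z ∈ X R a (H + 1) ∧ z = F x (W H H) v ∧ R z x ∧ R z v := by
  set V' := V F alt W zc H with hV'
  set U' := U F alt W zc H with hU'
  have Vz : ∀ ℓ, V' ℓ 0 = zc ℓ := V_zero F alt W zc H
  have Vs : ∀ ℓ k, k + 1 ≤ H → V' ℓ (k + 1) = F (U' (ℓ + (k + 1))) (W ℓ (k + 1)) (V' ℓ k) :=
    V_succ F alt W zc H
  have Ule : ∀ s, s ≤ H → U' s = alt s := U_le F alt W zc H
  have Ugt : ∀ m, U' (H + 1 + m) = V' m H := U_gt F alt W zc H
  have hFx : ∀ s u v, R a s → R a u → R a v → R a (F s u v) := by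
    intro s u v h1 h2 h3
    have := hFR a s a u a v h1 h2 h3
    rwa [hFid] at this
  have cA : ∀ k, k ≤ H → R a (V' 0 k) := by
    intro k
    induction k with
    | zero => intro _; rw [Vz]; exact hz0
    | succ k ih =>
      intro hk
      rw [Vs 0 k hk, Ule _ (by omega)]
      rcases halt (0 + (k + 1)) with h | h
      · rw [h]; exact hFa _ _ (hW0 _) (ih (by omega))
      · exact hFx _ _ _ h (hW0 _) (ih (by omega))
  have cB : ∀ s, s ≤ 2 * H → R (U' (s + 1)) (U' s) := by
    intro s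
    induction s using Nat.strong_induction_on with
    | _ s ih =>
      intro hs2
      by_cases h1 : s + 1 ≤ H
      · rw [Ule _ h1, Ule _ (by omega)]
        exact haltadj s
      · by_cases h2 : s = H
        · subst h2
          have e : U' (s + 1) = V' 0 s := Ugt 0
          rw [e, Ule s le_rfl, haltH]
          exact hs _ _ (cA s le_rfl)
        · obtain ⟨m, rfl⟩ : ∃ m, s = H + 1 + m := ⟨s - (H + 1), by omega⟩
          have e1 : U' (H + 1 + m + 1) = V' (m + 1) H := Ugt (m + 1)
          rw [e1, Ugt m]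
          have cC : ∀ k, k ≤ H → R (V' (m + 1) k) (V' m k) := by
            intro k
            induction k with
            | zero => intro _; rw [Vz, Vz]; exact hzadj m (by omega)
            | succ k ihk =>
              intro hk
              rw [Vs _ _ hk, Vs _ _ hk]
              refine hFR _ _ _ _ _ _ ?_ (hWadj m _ (by omega)) (ihk (by omega))
              have := ih (m + (k + 1)) (by omega) (by omega)
              have e3 : m + 1 + (k + 1) = m + (k + 1) + 1 := by omega
              rw [e3]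
              exact this
          exact cC H le_rfl
  have cD : ∀ k, k < H → R (V' H (k + 1)) (V' H k) := by
    intro k
    induction k with
    | zero =>
      intro _
      rw [Vs H 0 hH, Vz]
      refine hstate _ _ ?_ hW1
      have := cB H (by omega)
      rw [Ule H le_rfl, haltH] at this
      exact this
    | succ k ih =>
      intro hk
      rw [Vs H (k + 1) hk]
      conv_rhs => rw [Vs H k (by omega)]
      refine hFR _ _ _ _ _ _ ?_ (hWtime _) (ih (by omega))
      exact cB (H + (k + 1)) (by omega)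
  have cX : ∀ m, m ≤ H → U' (H + 1 + m) ∈ X R a (m + 1) := by
    intro m
    induction m with
    | zero =>
      intro _
      refine ⟨a, rfl, ?_⟩
      rw [Ugt 0]
      exact hs _ _ (cA H le_rfl)
    | succ m ih =>
      intro hm
      exact ⟨_, ih (by omega), cB (H + 1 + m) (by omega)⟩
  obtain ⟨k, rfl⟩ : ∃ k, H = k + 1 := ⟨H - 1, by omega⟩
  refine ⟨V' (k + 1) (k + 1), U' (k + 1 + (k + 1)), V' (k + 1) k, ?_, Vs _ _ le_rfl, ?_, ?_⟩
  · rw [← Ugt (k + 1)]
    exact cX (k + 1) le_rfl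
  · rw [← Ugt (k + 1)]
    have := cB (k + 1 + (k + 1)) (by omega)
    have e : k + 1 + 1 + (k + 1) = k + 1 + (k + 1) + 1 := by omega
    rw [e]
    exact this
  · exact cD k (by omega)

end Run7.h645.Loop
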